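import Mathlib

/-! Expansions and the quadratic identity behind the digits of the square root of two. -/

set_option autoImplicit false

open Finset

namespace Pool.Agent.W49.Sq2

/-- truncated integers of an expansion -/
def S (x : ℕ → ℤ) : ℕ → ℤ
  | 0 => x 0
  | n + 1 => 10 * S x n + x (n + 1)

/-- Cauchy product -/
def cp (x : ℕ → ℤ) (n : ℕ) : ℤ := ∑ p ∈ antidiagonal n, x p.1 * x p.2

/-- truncated integers of the Cauchy square -/
def B (x : ℕ → ℤ) : ℕ → ℤ
  | 0 => cp x 0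
  | n + 1 => 10 * B x n + cp x (n + 1)

/-- `x` are the digits of `X` with tails `t` -/
structure Exp (x : ℕ → ℤ) (X : ℝ) (t : ℕ → ℝ) : Prop where
  zero : t 0 = X - x 0
  succ : ∀ n, t (n + 1) = 10 * t n - x (n + 1)

variable {x : ℕ → ℤ} {X : ℝ} {t : ℕ → ℝ}

lemma S_eq (h : Exp x X t) (n : ℕ) : (S x n : ℝ) = 10 ^ n * X - t n := by
  induction n with
  | zero => simp [S, h.zero]
  | succ n ih => simp only [S]; push_cast; rw [ih, h.succ]; ring

lemma B_eq (h : Exp x X t) (n : ℕ) :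
    (B x n : ℝ) = X * S x n - ∑ p ∈ antidiagonal n, (x p.1 : ℝ) * t p.2 := by
  induction n with
  | zero => simp [S, B, cp, h.zero]; ring
  | succ n ih =>
    simp only [S, B, cp]
    push_cast
    rw [ih, Finset.Nat.antidiagonal_succ', Finset.sum_cons, Finset.sum_cons, Finset.sum_map,
      Finset.sum_map]
    simp only [Function.Embedding.prodMap, Function.Embedding.coeFn_mk, Prod.map,
      Function.Embedding.refl_apply, h.succ, h.zero]
    have e : ∑ p ∈ antidiagonal n, (x p.1 : ℝ) * (10 * t p.2 - x (p.2 + 1))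
        = 10 * ∑ p ∈ antidiagonal n, (x p.1 : ℝ) * t p.2
          - ∑ p ∈ antidiagonal n, (x p.1 : ℝ) * x (p.2 + 1) := by
      rw [Finset.mul_sum, ← Finset.sum_sub_distrib]
      refine Finset.sum_congr rfl fun p _ => by ring
    simp only [Nat.succ_eq_add_one] at *
    rw [e]
    ring

/-- the remainder -/
noncomputable def rho (V X : ℝ) (x : ℕ → ℤ) (t : ℕ → ℝ) (n : ℕ) : ℝ :=
  (2 * V + X) * t n + ∑ p ∈ antidiagonal n, (x p.1 : ℝ) * t p.2

lemma rho_eq (h : Exp x X t) (V : ℝ) (hV : (V + X) ^ 2 = 2) (n : ℕ) :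
    rho V X x t n = 10 ^ n * (2 - V ^ 2) - 2 * V * S x n - B x n := by
  have h1 := S_eq h n
  have h2 := B_eq h n
  have h3 : t n = 10 ^ n * X - S x n := by rw [h1]; ring
  have h4 : ∑ p ∈ antidiagonal n, (x p.1 : ℝ) * t p.2 = X * S x n - B x n := by
    rw [h2]; ring
  unfold rho
  rw [h4, h3]
  linear_combination (10 : ℝ) ^ n * hV

lemma sum_tail (h : Exp x X t) (ht : ∀ n, |t n| ≤ 1) (N : ℕ) :
    ∑ n ∈ range N, |t n| ≤ (∑ k ∈ Icc 1 N, |(x k : ℝ)| + 1) / 9 := by
  have key : ∀ N : ℕ, 10 * ∑ n ∈ range N, |t n| + |t 0| ≤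
      ∑ k ∈ Icc 1 N, |(x k : ℝ)| + ∑ n ∈ range N, |t n| + |t N| := by
    intro N
    induction N with
    | zero => simp
    | succ N ih =>
      rw [Finset.sum_range_succ, Finset.sum_Icc_succ_top (by omega)]
      have h1 : 10 * |t N| ≤ |(x (N + 1) : ℝ)| + |t (N + 1)| := by
        have := h.succ N
        have h2 : 10 * t N = t (N + 1) + x (N + 1) := by rw [this]; ring
        calc 10 * |t N| = |10 * t N| := by rw [abs_mul, abs_of_pos (by norm_num : (0:ℝ) < 10)]
          _ = |t (N + 1) + x (N + 1)| := by rw [h2]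
          _ ≤ |t (N + 1)| + |(x (N + 1) : ℝ)| := abs_add_le _ _
          _ = _ := by ring
      linarith
  have := key N
  have h1 := ht N
  have h2 := abs_nonneg (t 0)
  linarith

lemma sum_conv (N : ℕ) :
    ∑ n ∈ range N, |∑ p ∈ antidiagonal n, (x p.1 : ℝ) * t p.2| ≤
      (∑ i ∈ range N, |(x i : ℝ)|) * ∑ j ∈ range N, |t j| := by
  calc ∑ n ∈ range N, |∑ p ∈ antidiagonal n, (x p.1 : ℝ) * t p.2|
      ≤ ∑ n ∈ range N, ∑ p ∈ antidiagonal n, |(x p.1 : ℝ)| * |t p.2| := by
        refine Finset.sum_le_sum fun n _ => ?_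
        refine (Finset.abs_sum_le_sum_abs _ _).trans (le_of_eq ?_)
        exact Finset.sum_congr rfl fun p _ => abs_mul _ _
    _ = ∑ q ∈ (range N).sigma (fun n => antidiagonal n), |(x q.2.1 : ℝ)| * |t q.2.2| := by
        rw [Finset.sum_sigma]
    _ ≤ ∑ q ∈ range N ×ˢ range N, |(x q.1 : ℝ)| * |t q.2| := by
        rw [← Finset.sum_image (s := (range N).sigma (fun n => antidiagonal n))
          (g := fun q : (_ : ℕ) × (ℕ × ℕ) => q.2) (f := fun q => |(x q.1 : ℝ)| * |t q.2|)]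
        · refine Finset.sum_le_sum_of_subset_of_nonneg ?_ fun _ _ _ => by positivity
          intro q hq
          rw [Finset.mem_image] at hq
          obtain ⟨r, hr, rfl⟩ := hq
          rw [Finset.mem_sigma, Finset.mem_range, Finset.HasAntidiagonal.mem_antidiagonal] at hr
          rw [Finset.mem_product, Finset.mem_range, Finset.mem_range]
          omega
        · rintro ⟨n, p⟩ hp ⟨m, q⟩ hq hpq
          simp only [Finset.coe_sigma, Set.mem_sigma_iff, Finset.mem_coe,
            Finset.HasAntidiagonal.mem_antidiagonal] at hp hq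
          simp only at hpq
          subst hpq
          have : n = m := by omega
          subst this
          rfl
    _ = _ := by rw [Finset.sum_product, Finset.sum_mul_sum]

lemma sum_rho (h : Exp x X t) (ht : ∀ n, |t n| ≤ 1) (hx : ∀ n, |x n| ≤ 9) (V : ℝ) (N : ℕ) :
    ∑ n ∈ range N, |rho V X x t n| ≤
      (|2 * V + X| + 9) * (((Icc 1 N).filter (fun k => x k ≠ 0)).card + 1 : ℝ) ^ 2 := by
  set s : ℝ := (((Icc 1 N).filter (fun k => x k ≠ 0)).card : ℝ) with hs
  have hs0 : 0 ≤ s := by positivity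
  have h1 : ∑ k ∈ Icc 1 N, |(x k : ℝ)| ≤ 9 * s := by
    have : ∑ k ∈ Icc 1 N, |(x k : ℝ)| = ∑ k ∈ (Icc 1 N).filter (fun k => x k ≠ 0), |(x k : ℝ)| := by
      rw [Finset.sum_filter]
      refine Finset.sum_congr rfl fun k _ => ?_
      by_cases hk : x k = 0 <;> simp [hk]
    rw [this]
    calc ∑ k ∈ (Icc 1 N).filter (fun k => x k ≠ 0), |(x k : ℝ)|
        ≤ ∑ k ∈ (Icc 1 N).filter (fun k => x k ≠ 0), (9 : ℝ) := by
          refine Finset.sum_le_sum fun k _ => ?_
          have := hx k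
          exact_mod_cast this
      _ = 9 * s := by rw [Finset.sum_const, nsmul_eq_mul, hs]; ring
  have h2 : ∑ i ∈ range N, |(x i : ℝ)| ≤ 9 + 9 * s := by
    have h3 : ∑ i ∈ range N, |(x i : ℝ)| ≤ ∑ i ∈ range (N + 1), |(x i : ℝ)| := by
      rw [Finset.sum_range_succ]
      have := abs_nonneg (x N : ℝ)
      linarith
    have h4 : ∑ i ∈ range (N + 1), |(x i : ℝ)| = ∑ k ∈ Icc 1 N, |(x k : ℝ)| + |(x 0 : ℝ)| := by
      rw [Finset.sum_range_succ']
      congr 1
      rw [Finset.range_eq_Ico, Finset.sum_Ico_add' (fun i => |(x i : ℝ)|) 0 N 1]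
      rfl
    have h5 : |(x 0 : ℝ)| ≤ 9 := by exact_mod_cast hx 0
    linarith
  have h3 := sum_tail h ht N
  have h4 := sum_conv (x := x) (t := t) N
  have h5 : ∑ j ∈ range N, |t j| ≤ s + 1 := by linarith
  have h6 : 0 ≤ ∑ j ∈ range N, |t j| := Finset.sum_nonneg fun _ _ => abs_nonneg _
  calc ∑ n ∈ range N, |rho V X x t n|
      ≤ ∑ n ∈ range N, (|2 * V + X| * |t n| + |∑ p ∈ antidiagonal n, (x p.1 : ℝ) * t p.2|) := by
        refine Finset.sum_le_sum fun n _ => ?_
        unfold rho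
        refine (abs_add_le _ _).trans ?_
        rw [abs_mul]
    _ = |2 * V + X| * ∑ n ∈ range N, |t n|
        + ∑ n ∈ range N, |∑ p ∈ antidiagonal n, (x p.1 : ℝ) * t p.2| := by
        rw [Finset.sum_add_distrib, Finset.mul_sum]
    _ ≤ |2 * V + X| * (s + 1) + (9 + 9 * s) * (s + 1) := by
        refine add_le_add (mul_le_mul_of_nonneg_left h5 (abs_nonneg _)) (h4.trans ?_)
        exact mul_le_mul h2 h5 h6 (by positivity)
    _ ≤ (|2 * V + X| + 9) * (s + 1) ^ 2 := by
        have h7 := abs_nonneg (2 * V + X)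
        nlinarith [mul_nonneg h7 (mul_nonneg hs0 (by linarith : (0:ℝ) ≤ s + 1))]

end Pool.Agent.W49.Sq2
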