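import Mathlib
import Pool.Agent.W49.Sq2.Basic

set_option autoImplicit false

open Finset

namespace Pool.Agent.W49.Sq2

/-- the `n`-th decimal digit of the square root of two -/
noncomputable def dg (n : ℕ) : ℕ := ⌊Real.sqrt 2 * (10 : ℝ) ^ n⌋₊ % 10

/-- fractional part of `10 ^ n * sqrt 2` -/
noncomputable def th (n : ℕ) : ℝ := Real.sqrt 2 * (10 : ℝ) ^ n - ⌊Real.sqrt 2 * (10 : ℝ) ^ n⌋₊

lemma sq2 : Real.sqrt 2 ^ 2 = 2 := Real.sq_sqrt (by norm_num)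

lemma sq2_lo : (1.41 : ℝ) < Real.sqrt 2 := Real.lt_sqrt_of_sq_lt (by norm_num)

lemma sq2_hi : Real.sqrt 2 < 1.42 := (Real.sqrt_lt' (by norm_num)).2 (by norm_num)

lemma th_nonneg (n : ℕ) : 0 ≤ th n := by
  unfold th
  have := Nat.floor_le (a := Real.sqrt 2 * (10 : ℝ) ^ n) (by positivity)
  linarith

lemma th_lt_one (n : ℕ) : th n < 1 := by
  unfold th
  have := Nat.lt_floor_add_one (Real.sqrt 2 * (10 : ℝ) ^ n)
  linarith

lemma floor_succ (n : ℕ) : ⌊Real.sqrt 2 * (10 : ℝ) ^ (n + 1)⌋₊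
    = 10 * ⌊Real.sqrt 2 * (10 : ℝ) ^ n⌋₊ + dg (n + 1) := by
  have h1 : ⌊Real.sqrt 2 * (10 : ℝ) ^ (n + 1)⌋₊ / 10 = ⌊Real.sqrt 2 * (10 : ℝ) ^ n⌋₊ := by
    rw [← Nat.floor_div_ofNat]
    congr 1
    rw [pow_succ]
    ring
  unfold dg
  omega

lemma th_succ (n : ℕ) : th (n + 1) = 10 * th n - dg (n + 1) := by
  unfold th
  rw [floor_succ]
  push_cast
  ring

lemma floor_zero : ⌊Real.sqrt 2 * (10 : ℝ) ^ 0⌋₊ = 1 := by
  rw [Nat.floor_eq_iff (by positivity)]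
  have h1 := sq2_lo
  have h2 := sq2_hi
  constructor <;> norm_num

lemma dg_zero : dg 0 = 1 := by
  unfold dg; rw [floor_zero]

lemma dg_lt (n : ℕ) : dg n < 10 := Nat.mod_lt _ (by norm_num)

lemma exp_dg : Exp (fun n => (dg n : ℤ)) (Real.sqrt 2) th where
  zero := by
    simp only [dg_zero]
    unfold th
    rw [floor_zero]
    simp
  succ := by
    intro n
    rw [th_succ]
    simp

lemma irr : Irrational (Real.sqrt 2) := by
  exact_mod_cast Nat.prime_two.irrational_sqrt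

lemma th_pos (n : ℕ) : 0 < th n := by
  refine lt_of_le_of_ne (th_nonneg n) fun h => ?_
  have h1 : Real.sqrt 2 * (10 : ℝ) ^ n = ⌊Real.sqrt 2 * (10 : ℝ) ^ n⌋₊ := by
    unfold th at h; linarith
  have h2 : Irrational (Real.sqrt 2 * ((10 ^ n : ℕ) : ℝ)) :=
    irr.mul_natCast (by positivity)
  apply h2
  refine ⟨(⌊Real.sqrt 2 * (10 : ℝ) ^ n⌋₊ : ℚ), ?_⟩
  push_cast
  exact h1.symm

/-- number of places up to `N` where the digits differ from `v` -/
noncomputable def mis (v : ℕ → ℕ) (N : ℕ) : ℕ := ((Icc 1 N).filter (fun k => dg k ≠ v k)).card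

end Pool.Agent.W49.Sq2
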