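import Mathlib
import Pool.Agent.W49.Sq2.Digits

set_option autoImplicit false

open Finset

namespace Pool.Agent.W49.Sq2

lemma le_sum_of_one_le (N : ℕ) (f : ℕ → ℝ) (h : ∀ n, 1 ≤ |f n|) :
    (N : ℝ) ≤ ∑ n ∈ range N, |f n| := by
  calc (N : ℝ) = ∑ n ∈ range N, (1 : ℝ) := by simp
    _ ≤ _ := Finset.sum_le_sum fun n _ => h n

/-- case `v = 0` -/
lemma zero_case (N : ℕ) : (N : ℝ) ≤ 11 * ((mis (fun _ => 0) N : ℝ) + 1) ^ 2 := by
  have hE := exp_dg
  have h1 : ∀ n, 1 ≤ |rho 0 (Real.sqrt 2) (fun n => (dg n : ℤ)) th n| := by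
    intro n
    have h2 := rho_eq hE 0 (by rw [zero_add]; exact sq2) n
    have h3 : 0 < rho 0 (Real.sqrt 2) (fun n => (dg n : ℤ)) th n := by
      unfold rho
      have h4 : 0 < (2 * 0 + Real.sqrt 2) * th n := by
        have := th_pos n
        have := sq2_lo
        positivity
      have h5 : 0 ≤ ∑ p ∈ antidiagonal n, (((dg p.1 : ℤ)) : ℝ) * th p.2 := by
        refine Finset.sum_nonneg fun p _ => mul_nonneg (by positivity) (th_nonneg _)
      linarith
    have h6 : rho 0 (Real.sqrt 2) (fun n => (dg n : ℤ)) th n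
        = ((10 ^ n * 2 - B (fun n => (dg n : ℤ)) n : ℤ) : ℝ) := by
      rw [h2]; push_cast; ring
    rw [abs_of_pos h3]
    rw [h6] at h3 ⊢
    have h7 : (0 : ℤ) < 10 ^ n * 2 - B (fun n => (dg n : ℤ)) n := by exact_mod_cast h3
    exact_mod_cast (by omega : (1 : ℤ) ≤ 10 ^ n * 2 - B (fun n => (dg n : ℤ)) n)
  have h2 := le_sum_of_one_le N _ h1
  have h3 := sum_rho hE (fun n => by rw [abs_of_nonneg (th_nonneg n)]; exact (th_lt_one n).le)
    (fun n => by
      have := dg_lt n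
      rw [abs_le]
      constructor <;> omega) 0 N
  have h4 : (((Icc 1 N).filter (fun k => ((fun n => (dg n : ℤ)) k) ≠ 0)).card : ℝ)
      = mis (fun _ => 0) N := by
    unfold mis
    congr 2
    ext k
    simp
  rw [h4] at h3
  have h5 : |2 * 0 + Real.sqrt 2| = Real.sqrt 2 := by
    rw [mul_zero, zero_add, abs_of_nonneg (Real.sqrt_nonneg _)]
  rw [h5] at h3
  have h6 := sq2_hi
  nlinarith [sq_nonneg ((mis (fun _ => 0) N : ℝ) + 1)]

/-- comparison of two sequences which agree from `k₀` on -/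
lemma mis_le (v w : ℕ → ℕ) (k₀ N : ℕ) (h : ∀ k, k₀ ≤ k → v k = w k) :
    mis w N ≤ mis v N + k₀ := by
  unfold mis
  have h1 : (Icc 1 N).filter (fun k => dg k ≠ w k) ⊆
      (Icc 1 N).filter (fun k => dg k ≠ v k) ∪ range k₀ := by
    intro k hk
    rw [Finset.mem_filter] at hk
    rw [Finset.mem_union, Finset.mem_filter, Finset.mem_range]
    by_cases hk0 : k < k₀
    · exact Or.inr hk0
    · left
      rw [h k (by omega)]
      exact hk
  calc _ ≤ _ := Finset.card_le_card h1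
    _ ≤ _ := (Finset.card_union_le _ _).trans (by rw [Finset.card_range])

end Pool.Agent.W49.Sq2
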