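import Mathlib
import Pool.Agent.W49.Sq2.Zero

set_option autoImplicit false

open Finset

namespace Pool.Agent.W49.Sq2

/-- nine-complement digits -/
noncomputable def dn (n : ℕ) : ℤ := if n = 0 then 0 else 9 - dg n

/-- complement tails -/
noncomputable def tn (n : ℕ) : ℝ := 1 - th n

lemma tn_pos (n : ℕ) : 0 < tn n := by
  unfold tn; have := th_lt_one n; linarith

lemma tn_le (n : ℕ) : tn n ≤ 1 := by
  unfold tn; have := th_nonneg n; linarith

lemma dn_nonneg (n : ℕ) : 0 ≤ dn n := by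
  unfold dn
  have := dg_lt n
  split_ifs <;> omega

lemma dn_le (n : ℕ) : dn n ≤ 9 := by
  unfold dn
  split_ifs <;> omega

lemma exp_dn : Exp dn (2 - Real.sqrt 2) tn where
  zero := by
    have h := exp_dg.zero
    simp only [dg_zero] at h
    unfold tn dn
    rw [h]
    simp
    ring
  succ := by
    intro n
    unfold tn dn
    rw [th_succ]
    simp
    ring

lemma liouville (m : ℕ) : 1 ≤ 4 * 10 ^ m * tn m := by
  have h1 := S_eq exp_dn m
  have h2 : tn m * (tn m + 2 * Real.sqrt 2 * 10 ^ m)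
      = ((S dn m ^ 2 - 4 * 10 ^ m * S dn m + 2 * 10 ^ (2 * m) : ℤ) : ℝ) := by
    push_cast
    rw [h1, pow_mul']
    linear_combination (-(10 : ℝ) ^ (m : ℕ) ^ 1 * 10 ^ m) * sq2
  have h3 : 0 < tn m * (tn m + 2 * Real.sqrt 2 * 10 ^ m) := by
    have := tn_pos m
    positivity
  rw [h2] at h3
  have h4 : (0 : ℤ) < S dn m ^ 2 - 4 * 10 ^ m * S dn m + 2 * 10 ^ (2 * m) := by exact_mod_cast h3
  have h5 : (1 : ℝ) ≤ tn m * (tn m + 2 * Real.sqrt 2 * 10 ^ m) := by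
    rw [h2]
    exact_mod_cast (by omega : (1 : ℤ) ≤ S dn m ^ 2 - 4 * 10 ^ m * S dn m + 2 * 10 ^ (2 * m))
  have h6 := tn_pos m
  have h7 := tn_le m
  have h8 := sq2_hi
  have h9 : (1 : ℝ) ≤ 10 ^ m := one_le_pow₀ (by norm_num)
  have h10 : tn m + 2 * Real.sqrt 2 * 10 ^ m ≤ 4 * 10 ^ m := by nlinarith
  nlinarith

lemma tn_run (n m : ℕ) (h : ∀ k, n < k → k ≤ n + m → dn k = 0) :
    tn (n + m) = 10 ^ m * tn n := by
  induction m with
  | zero => simp
  | succ m ih =>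
    rw [← Nat.add_assoc, exp_dn.succ, ih fun k h1 h2 => h k h1 (by omega),
      h (n + m + 1) (by omega) (by omega)]
    push_cast
    ring

/-- the remainders of the complement -/
noncomputable def W (n : ℕ) : ℝ := rho (-2) (2 - Real.sqrt 2) dn tn n

lemma W_int (n : ℕ) : ∃ z : ℤ, W n = z := by
  refine ⟨10 ^ n * (2 - 4) + 4 * S dn n - B dn n, ?_⟩
  unfold W
  rw [rho_eq exp_dn (-2) (by ring_nf; rw [sq2])]
  push_cast
  ring

lemma bad (n κ m : ℕ) (hκ : κ ≤ n) (hd : dn κ ≠ 0)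
    (hrun : ∀ k, n < k → k ≤ n + m → dn k = 0) (h0 : W n = 0) : m ≤ n - κ + 1 := by
  have h1 : ∑ p ∈ antidiagonal n, (dn p.1 : ℝ) * tn p.2 = (2 + Real.sqrt 2) * tn n := by
    unfold W rho at h0
    linarith
  have h2 : (dn κ : ℝ) * tn (n - κ) ≤ ∑ p ∈ antidiagonal n, (dn p.1 : ℝ) * tn p.2 := by
    refine Finset.single_le_sum (f := fun p : ℕ × ℕ => (dn p.1 : ℝ) * tn p.2)
      (a := (κ, n - κ)) (fun p _ => mul_nonneg (by exact_mod_cast dn_nonneg p.1) (tn_pos _).le) ?_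
    rw [Finset.HasAntidiagonal.mem_antidiagonal]
    omega
  have h3 : (1 : ℝ) ≤ dn κ := by
    have := dn_nonneg κ
    exact_mod_cast (by omega : (1 : ℤ) ≤ dn κ)
  have h4 := tn_run n m hrun
  have h5 := tn_le (n + m)
  have h6 := liouville (n - κ)
  have h7 := tn_pos (n - κ)
  have h8 := sq2_hi
  have h9 := tn_pos n
  have h10 : tn (n - κ) ≤ 3.42 * tn n := by nlinarith
  have h11 : (10 : ℝ) ^ m < 10 ^ (n - κ + 2) := by
    have h12 : (10 : ℝ) ^ m * 1 ≤ 10 ^ m * (4 * 10 ^ (n - κ) * tn (n - κ)) :=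
      mul_le_mul_of_nonneg_left h6 (by positivity)
    have h13 : (10 : ℝ) ^ m * (4 * 10 ^ (n - κ) * tn (n - κ))
        ≤ 10 ^ m * (4 * 10 ^ (n - κ) * (3.42 * tn n)) := by
      have : (0 : ℝ) ≤ 10 ^ m * (4 * 10 ^ (n - κ)) := by positivity
      nlinarith
    have h14 : (10 : ℝ) ^ m * (4 * 10 ^ (n - κ) * (3.42 * tn n))
        = 13.68 * 10 ^ (n - κ) * (10 ^ m * tn n) := by ring
    have h15 : 13.68 * (10 : ℝ) ^ (n - κ) * (10 ^ m * tn n) ≤ 13.68 * 10 ^ (n - κ) * 1 := by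
      rw [← h4]
      exact mul_le_mul_of_nonneg_left h5 (by positivity)
    have h16 : (10 : ℝ) ^ (n - κ + 2) = 100 * 10 ^ (n - κ) := by ring
    have h17 : (0 : ℝ) < 10 ^ (n - κ) := by positivity
    linarith
  have h12 := (pow_lt_pow_iff_right₀ (by norm_num : (1 : ℝ) < 10)).1 h11
  omega

end Pool.Agent.W49.Sq2
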