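import Mathlib
import Pool.Agent.W49.Sq2.Nine

set_option autoImplicit false

open Finset

namespace Pool.Agent.W49.Sq2

lemma dn_one : dn 1 ≠ 0 := by
  have h : dg 1 = 4 := by
    unfold dg
    have : ⌊Real.sqrt 2 * (10 : ℝ) ^ 1⌋₊ = 14 := by
      rw [Nat.floor_eq_iff (by positivity)]
      have h1 : (1.4 : ℝ) < Real.sqrt 2 := Real.lt_sqrt_of_sq_lt (by norm_num)
      have h2 := sq2_hi
      push_cast
      constructor <;> linarith
    rw [this]
  unfold dn
  rw [h]
  norm_num

/-- number of `n < N` with nonzero remainder -/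
noncomputable def g (N : ℕ) : ℕ := ((range N).filter (fun n => W n ≠ 0)).card

/-- number of `1 ≤ k ≤ N` with `dn k ≠ 0` -/
noncomputable def s9 (N : ℕ) : ℕ := ((Icc 1 N).filter (fun k => dn k ≠ 0)).card

lemma s9_succ (N : ℕ) (h : dn (N + 1) ≠ 0) : s9 (N + 1) = s9 N + 1 := by
  unfold s9
  rw [← Finset.insert_Icc_right_eq_Icc_add_one (by omega), Finset.filter_insert, if_pos h,
    Finset.card_insert_of_notMem]
  simp

lemma g_mono {a b : ℕ} (h : a ≤ b) : g a ≤ g b := by
  unfold g
  refine Finset.card_le_card (Finset.filter_subset_filter _ ?_)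
  intro x hx
  rw [Finset.mem_range] at *
  omega

lemma count (N : ℕ) : N ≤ 2 * g N + 2 * s9 N + 1 := by
  induction N using Nat.strong_induction_on with
  | _ N ih =>
    rcases Nat.eq_zero_or_pos N with h0 | h0
    · subst h0; omega
    by_cases hN : dn N = 0
    · -- last nonzero index below `N`
      have hne : ((Icc 1 N).filter (fun k => dn k ≠ 0)).Nonempty :=
        ⟨1, by rw [Finset.mem_filter, Finset.mem_Icc]; exact ⟨by omega, dn_one⟩⟩
      obtain ⟨κ, hκ⟩ : ∃ κ, κ = ((Icc 1 N).filter (fun k => dn k ≠ 0)).max' hne := ⟨_, rfl⟩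
      have hmem := Finset.max'_mem _ hne
      rw [← hκ, Finset.mem_filter, Finset.mem_Icc] at hmem
      obtain ⟨⟨hκ1, hκN⟩, hκ0⟩ := hmem
      have hmax : ∀ k, κ < k → k ≤ N → dn k = 0 := by
        intro k hk1 hk2
        by_contra hk
        have : k ≤ κ := by
          rw [hκ]
          exact Finset.le_max' _ _ (by rw [Finset.mem_filter, Finset.mem_Icc]; exact ⟨by omega, hk⟩)
        omega
      have hlt : κ < N := by
        rcases Nat.lt_or_ge κ N with h | h
        · exact h
        · exfalso
          have : κ = N := by omega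
          rw [this] at hκ0
          exact hκ0 hN
      -- the claim at `κ`, in stronger form
      have hk : κ ≤ 2 * g κ + 2 * s9 κ := by
        obtain ⟨j, rfl⟩ : ∃ j, κ = j + 1 := ⟨κ - 1, by omega⟩
        have h1 := ih j (by omega)
        have h2 := s9_succ j hκ0
        have h3 := g_mono (Nat.le_succ j)
        simp only [Nat.succ_eq_add_one] at h3
        omega
      have hs : s9 κ = s9 N := by
        unfold s9
        congr 1
        ext k
        simp only [Finset.mem_filter, Finset.mem_Icc]
        constructor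
        · rintro ⟨h1, h2⟩; exact ⟨by omega, h2⟩
        · rintro ⟨h1, h2⟩
          refine ⟨⟨h1.1, ?_⟩, h2⟩
          by_contra hc
          exact h2 (hmax k (by omega) h1.2)
      have hg : g κ + ((N + κ) / 2 - κ) ≤ g N := by
        unfold g
        rw [← Nat.card_Ico κ ((N + κ) / 2), ← Finset.card_union_of_disjoint]
        · refine Finset.card_le_card ?_
          intro n hn
          rw [Finset.mem_union, Finset.mem_filter, Finset.mem_range, Finset.mem_Ico] at hn
          rw [Finset.mem_filter, Finset.mem_range]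
          rcases hn with hn | hn
          · exact ⟨by omega, hn.2⟩
          · refine ⟨by omega, fun hW => ?_⟩
            have := bad n κ (N - n) hn.1 hκ0 (fun k h1 h2 => hmax k (by omega) (by omega)) hW
            omega
        · rw [Finset.disjoint_left]
          intro n hn hn'
          rw [Finset.mem_filter, Finset.mem_range] at hn
          rw [Finset.mem_Ico] at hn'
          omega
      omega
    · obtain ⟨j, rfl⟩ : ∃ j, N = j + 1 := ⟨N - 1, by omega⟩
      have h1 := ih j (by omega)
      have h2 := s9_succ j hN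
      have h3 := g_mono (Nat.le_succ j)
      simp only [Nat.succ_eq_add_one] at h3
      omega

lemma g_le (N : ℕ) : (g N : ℝ) ≤ ∑ n ∈ range N, |W n| := by
  unfold g
  calc (((range N).filter (fun n => W n ≠ 0)).card : ℝ)
      = ∑ n ∈ (range N).filter (fun n => W n ≠ 0), (1 : ℝ) := by simp
    _ ≤ ∑ n ∈ (range N).filter (fun n => W n ≠ 0), |W n| := by
        refine Finset.sum_le_sum fun n hn => ?_
        rw [Finset.mem_filter] at hn
        obtain ⟨z, hz⟩ := W_int n
        rw [hz] at hn ⊢
        have h1 : z ≠ 0 := by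
          intro h; apply hn.2; rw [h]; simp
        exact_mod_cast Int.one_le_abs h1
    _ ≤ _ := Finset.sum_le_sum_of_subset_of_nonneg (Finset.filter_subset _ _)
        fun _ _ _ => abs_nonneg _

/-- case `v = 9` -/
lemma nine_case (N : ℕ) : (N : ℝ) ≤ 28 * ((mis (fun _ => 9) N : ℝ) + 1) ^ 2 := by
  have h1 := g_le N
  have h2 := sum_rho exp_dn (fun n => by rw [abs_of_pos (tn_pos n)]; exact tn_le n)
    (fun n => by rw [abs_of_nonneg (dn_nonneg n)]; exact dn_le n) (-2) N
  have h3 : s9 N = mis (fun _ => 9) N := by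
    unfold s9 mis
    congr 1
    ext k
    simp only [Finset.mem_filter, Finset.mem_Icc]
    refine and_congr_right fun hk => ?_
    unfold dn
    have := dg_lt k
    rw [if_neg (by omega)]
    omega
  have h4 : ((((Icc 1 N).filter (fun k => dn k ≠ 0)).card : ℕ) : ℝ) = mis (fun _ => 9) N := by
    rw [← h3]; rfl
  have h5 : |2 * (-2) + (2 - Real.sqrt 2)| = 2 + Real.sqrt 2 := by
    rw [abs_of_neg] <;> linarith [Real.sqrt_nonneg 2]
  rw [h4, h5] at h2
  have h6 : (N : ℝ) ≤ 2 * g N + 2 * mis (fun _ => 9) N + 1 := by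
    have := count N
    rw [h3] at this
    exact_mod_cast this
  have h7 : (∑ n ∈ range N, |W n|) = ∑ n ∈ range N, |rho (-2) (2 - Real.sqrt 2) dn tn n| := rfl
  rw [h7] at h1
  have h8 := sq2_hi
  have h9 : (0 : ℝ) ≤ mis (fun _ => 9) N := by positivity
  nlinarith [sq_nonneg ((mis (fun _ => 9) N : ℝ) + 1), mul_nonneg h9 h9]

end Pool.Agent.W49.Sq2
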