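import Mathlib
import Pool.Agent.W49.Sq2.NineCount

set_option autoImplicit false

open Finset

namespace Pool.Agent.W49.Sq2

/-- tails of a digit sequence -/
noncomputable def ph (w : ℕ → Fin 10) (n : ℕ) : ℝ := Real.ofDigits (fun j => w (n + 1 + j))

/-- value of a digit sequence -/
noncomputable def val (w : ℕ → Fin 10) : ℝ := ((w 0).val : ℝ) + ph w 0

variable (w : ℕ → Fin 10)

lemma ph_nonneg (n : ℕ) : 0 ≤ ph w n := Real.ofDigits_nonneg _

lemma ph_le (n : ℕ) : ph w n ≤ 1 := Real.ofDigits_le_one _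

lemma ph_succ (n : ℕ) : ph w (n + 1) = 10 * ph w n - ((w (n + 1)).val : ℝ) := by
  have h := Real.ofDigits_eq_sum_add_ofDigits (fun j => w (n + 1 + j)) 1
  have e : (fun i => w (n + 1 + (i + 1))) = fun j => w (n + 1 + 1 + j) := by
    funext i; congr 1; omega
  simp only [e] at h
  unfold ph
  rw [h]
  simp [Real.ofDigitsTerm]
  ring

lemma exp_w : Exp (fun n => ((w n).val : ℤ)) (val w) (ph w) where
  zero := by unfold val; push_cast; ring
  succ := by intro n; rw [ph_succ]; simp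

lemma exp_sub {x y : ℕ → ℤ} {X Y : ℝ} {t u : ℕ → ℝ} (h1 : Exp x X t) (h2 : Exp y Y u) :
    Exp (fun n => x n - y n) (X - Y) (fun n => t n - u n) where
  zero := by simp only [h1.zero, h2.zero]; push_cast; ring
  succ := by intro n; simp only [h1.succ, h2.succ]; push_cast; ring

lemma ph_shift (n m : ℕ) : ∃ z : ℤ, ph w (n + m) = 10 ^ m * ph w n - z := by
  induction m with
  | zero => exact ⟨0, by simp⟩
  | succ m ih =>
    obtain ⟨z, hz⟩ := ih
    refine ⟨10 * z + (w (n + m + 1)).val, ?_⟩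
    rw [← Nat.add_assoc, ph_succ, hz]
    push_cast
    ring

lemma val_rat (k₀ T : ℕ) (hT : 0 < T) (hp : ∀ k, k₀ ≤ k → w (k + T) = w k) :
    ∃ r : ℚ, val w = r ∧ r.den ∣ 10 ^ k₀ * (10 ^ T - 1) := by
  have h1 : ph w (k₀ + T) = ph w k₀ := by
    unfold ph
    congr 1
    funext j
    have := hp (k₀ + 1 + j) (by omega)
    rw [← this]
    congr 1
    omega
  obtain ⟨z1, hz1⟩ := ph_shift w k₀ T
  obtain ⟨z2, hz2⟩ := ph_shift w 0 k₀
  rw [zero_add] at hz2
  rw [h1] at hz1
  have hT1 : 10 ≤ 10 ^ T := Nat.le_self_pow (by omega) 10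
  have hQ : (((10 ^ k₀ * (10 ^ T - 1) : ℕ)) : ℝ) = 10 ^ k₀ * (10 ^ T - 1) := by
    rw [Nat.cast_mul, Nat.cast_sub (by omega)]
    push_cast
    ring
  have hQ0 : (0 : ℝ) < 10 ^ k₀ * (10 ^ T - 1) := by
    have : (10 : ℝ) ≤ 10 ^ T := by exact_mod_cast hT1
    have h2 : (0 : ℝ) < 10 ^ k₀ := by positivity
    nlinarith
  have h2 : ((10 ^ k₀ * (10 ^ T - 1) : ℕ) : ℝ) * val w
      = ((z1 + (10 ^ T - 1) * z2 + (10 ^ k₀ * (10 ^ T - 1)) * (w 0).val : ℤ) : ℝ) := by
    rw [hQ]
    push_cast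
    unfold val
    linear_combination -hz1 + (1 - (10 : ℝ) ^ T) * hz2
  refine ⟨((z1 + (10 ^ T - 1) * z2 + (10 ^ k₀ * (10 ^ T - 1)) * (w 0).val : ℤ) : ℚ)
    / (((10 ^ k₀ * (10 ^ T - 1) : ℕ) : ℤ) : ℚ), ?_, ?_⟩
  · rw [Rat.cast_div, Rat.cast_intCast, Rat.cast_intCast, Int.cast_natCast, ← h2]
    rw [mul_div_assoc, mul_comm, div_mul_cancel₀]
    rw [hQ]
    exact hQ0.ne'
  · have := Rat.den_dvd (z1 + (10 ^ T - 1) * z2 + (10 ^ k₀ * (10 ^ T - 1)) * (w 0).val)
      ((10 ^ k₀ * (10 ^ T - 1) : ℕ) : ℤ)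
    exact_mod_cast this

/-- the sequence of digit differences -/
noncomputable def df (n : ℕ) : ℤ := (dg n : ℤ) - (w n).val

lemma exp_df : Exp (df w) (Real.sqrt 2 - val w) (fun n => th n - ph w n) :=
  exp_sub exp_dg (exp_w w)

lemma caseA (r : ℚ) (hr : val w = r) (hd : ∀ m : ℕ, ¬ r.den ∣ 10 ^ m) (N : ℕ) :
    (N : ℝ) ≤ (r.den : ℝ) ^ 2 * 21 * ((mis (fun k => (w k).val) N : ℝ) + 1) ^ 2 := by
  have hE := exp_df w
  have hden : (0 : ℝ) < r.den := by exact_mod_cast r.den_pos
  have hrr : val w * r.den = r.num := by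
    rw [hr]
    exact_mod_cast Rat.mul_den_eq_num r
  set t : ℕ → ℝ := fun n => th n - ph w n with ht
  have h1 : ∀ n, 1 ≤ |(r.den : ℝ) ^ 2 * rho (val w) (Real.sqrt 2 - val w) (df w) t n| := by
    intro n
    have h2 := rho_eq hE (val w) (by ring_nf; exact sq2) n
    have h3 : (r.den : ℝ) ^ 2 * rho (val w) (Real.sqrt 2 - val w) (df w) t n
        = ((10 ^ n * (2 * r.den ^ 2 - r.num ^ 2) - 2 * r.num * r.den * S (df w) n
          - r.den ^ 2 * B (df w) n : ℤ) : ℝ) := by
      rw [h2]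
      push_cast
      rw [← hrr]
      ring
    rw [h3]
    have h4 : (10 ^ n * (2 * r.den ^ 2 - r.num ^ 2) - 2 * r.num * r.den * S (df w) n
          - r.den ^ 2 * B (df w) n : ℤ) ≠ 0 := by
      intro h0
      have h5 : (r.den : ℤ) ∣ 10 ^ n * r.num ^ 2 := by
        refine ⟨10 ^ n * (2 * r.den) - 2 * r.num * S (df w) n - r.den * B (df w) n, ?_⟩
        linear_combination -h0
      have h6 : IsCoprime (r.den : ℤ) (r.num ^ 2) := by
        have := r.reduced
        rw [Int.isCoprime_iff_gcd_eq_one]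
        have h7 : IsCoprime (r.num) (r.den : ℤ) := by
          rw [Int.isCoprime_iff_gcd_eq_one]
          exact this
        exact Int.isCoprime_iff_gcd_eq_one.1 h7.symm.pow_right
      have h7 := h6.dvd_of_dvd_mul_right h5
      exact hd n (by exact_mod_cast h7)
    exact_mod_cast Int.one_le_abs h4
  have h2 := le_sum_of_one_le N _ h1
  have h3 : ∑ n ∈ range N, |(r.den : ℝ) ^ 2 * rho (val w) (Real.sqrt 2 - val w) (df w) t n|
      = (r.den : ℝ) ^ 2 * ∑ n ∈ range N, |rho (val w) (Real.sqrt 2 - val w) (df w) t n| := by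
    rw [Finset.mul_sum]
    refine Finset.sum_congr rfl fun n _ => ?_
    rw [abs_mul, abs_of_pos (by positivity : (0 : ℝ) < (r.den : ℝ) ^ 2)]
  have h4 := sum_rho hE (fun n => by
      rw [abs_le]
      have h1 := th_nonneg n
      have h2 := th_lt_one n
      have h3 := ph_nonneg w n
      have h4 := ph_le w n
      constructor <;> linarith)
    (fun n => by
      have h1 := dg_lt n
      have h2 := (w n).isLt
      unfold df
      rw [abs_le]
      constructor <;> omega) (val w) N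
  have h5 : (((Icc 1 N).filter (fun k => df w k ≠ 0)).card : ℝ)
      = mis (fun k => (w k).val) N := by
    unfold mis
    congr 2
    ext k
    simp only [Finset.mem_filter]
    refine and_congr_right fun _ => ?_
    unfold df
    omega
  rw [h5] at h4
  have h6 : |2 * val w + (Real.sqrt 2 - val w)| ≤ 12 := by
    have h1 := ph_nonneg w 0
    have h2 := ph_le w 0
    have h3 := sq2_hi
    have h4 := sq2_lo
    have h5 : ((w 0).val : ℝ) ≤ 9 := by
      have := (w 0).isLt
      exact_mod_cast (by omega : (w 0).val ≤ 9)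
    have h6 : (0 : ℝ) ≤ ((w 0).val : ℝ) := by positivity
    unfold val
    rw [abs_le]
    constructor <;> linarith
  rw [h3] at h2
  calc (N : ℝ) ≤ _ := h2
    _ ≤ (r.den : ℝ) ^ 2 * ((|2 * val w + (Real.sqrt 2 - val w)| + 9)
        * ((mis (fun k => (w k).val) N : ℝ) + 1) ^ 2) :=
        mul_le_mul_of_nonneg_left h4 (by positivity)
    _ ≤ (r.den : ℝ) ^ 2 * (21 * ((mis (fun k => (w k).val) N : ℝ) + 1) ^ 2) := by
        refine mul_le_mul_of_nonneg_left ?_ (by positivity)
        refine mul_le_mul_of_nonneg_right ?_ (by positivity)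
        linarith
    _ = _ := by ring

lemma ph_zero_step (n : ℕ) (h : ph w n = 0) : (w (n + 1)).val = 0 ∧ ph w (n + 1) = 0 := by
  have h1 := ph_succ w n
  have h2 := ph_nonneg w (n + 1)
  have h3 : (0 : ℝ) ≤ ((w (n + 1)).val : ℝ) := by positivity
  rw [h] at h1
  constructor
  · have : ((w (n + 1)).val : ℝ) = 0 := by linarith
    exact_mod_cast this
  · linarith

lemma ph_one_step (n : ℕ) (h : ph w n = 1) : (w (n + 1)).val = 9 ∧ ph w (n + 1) = 1 := by
  have h1 := ph_succ w n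
  have h2 := ph_le w (n + 1)
  have h3 : ((w (n + 1)).val : ℝ) ≤ 9 := by
    have := (w (n + 1)).isLt
    exact_mod_cast (by omega : (w (n + 1)).val ≤ 9)
  rw [h] at h1
  constructor
  · have : ((w (n + 1)).val : ℝ) = 9 := by linarith
    exact_mod_cast this
  · linarith

lemma caseB (r : ℚ) (hr : val w = r) (m : ℕ) (hd : r.den ∣ 10 ^ m) (k₀ T : ℕ) (hT : 0 < T)
    (hp : ∀ k, k₀ ≤ k → w (k + T) = w k) :
    (∀ k, k₀ ≤ k → (w k).val = 0) ∨ (∀ k, k₀ ≤ k → (w k).val = 9) := by
  obtain ⟨z, hz⟩ := ph_shift w 0 m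
  rw [zero_add] at hz
  obtain ⟨c, hc⟩ := hd
  have h1 : (10 : ℝ) ^ m * val w = ((c * r.num : ℤ) : ℝ) := by
    have h2 : (r : ℝ) * r.den = r.num := by exact_mod_cast Rat.mul_den_eq_num r
    have h3 : (10 : ℝ) ^ m = r.den * c := by exact_mod_cast hc
    rw [h3, hr]
    push_cast
    rw [← h2]
    ring
  have h2 : ph w m = ((c * r.num - 10 ^ m * (w 0).val - z : ℤ) : ℝ) := by
    rw [hz]
    push_cast at h1 ⊢
    rw [← h1]
    unfold val
    ring
  have h3 : ph w m = 0 ∨ ph w m = 1 := by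
    have h4 := ph_nonneg w m
    have h5 := ph_le w m
    rw [h2] at h4 h5 ⊢
    have h6 : (0 : ℤ) ≤ c * r.num - 10 ^ m * (w 0).val - z := by exact_mod_cast h4
    have h7 : (c * r.num - 10 ^ m * (w 0).val - z : ℤ) ≤ 1 := by exact_mod_cast h5
    rcases (by omega : (c * r.num - 10 ^ m * (w 0).val - z : ℤ) = 0 ∨
      (c * r.num - 10 ^ m * (w 0).val - z : ℤ) = 1) with h | h
    · left; rw [h]; simp
    · right; rw [h]; simp
  have hper : ∀ j k, k₀ ≤ k → w (k + j * T) = w k := by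
    intro j
    induction j with
    | zero => intro k _; simp
    | succ j ih =>
      intro k hk
      have e : k + (j + 1) * T = (k + j * T) + T := by ring
      rw [e, hp _ (by omega), ih k hk]
  have hfar : ∀ k, k₀ ≤ k → ∃ i, w k = w (m + 1 + i) := by
    intro k hk
    refine ⟨k + (m + 1) * T - (m + 1), ?_⟩
    have : m + 1 ≤ (m + 1) * T := Nat.le_mul_of_pos_right _ hT
    rw [← hper (m + 1) k hk]
    congr 1
    omega
  rcases h3 with h3 | h3
  · left
    have key : ∀ i, ph w (m + i) = 0 := by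
      intro i
      induction i with
      | zero => exact h3
      | succ i ih => exact (ph_zero_step w _ ih).2
    intro k hk
    obtain ⟨i, hi⟩ := hfar k hk
    rw [hi]
    have := (ph_zero_step w _ (key i)).1
    rwa [show m + i + 1 = m + 1 + i by omega] at this
  · right
    have key : ∀ i, ph w (m + i) = 1 := by
      intro i
      induction i with
      | zero => exact h3
      | succ i ih => exact (ph_one_step w _ ih).2
    intro k hk
    obtain ⟨i, hi⟩ := hfar k hk
    rw [hi]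
    have := (ph_one_step w _ (key i)).1
    rwa [show m + i + 1 = m + 1 + i by omega] at this

end Pool.Agent.W49.Sq2
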